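import Mathlib
import Pool.Agent.Lib.MP_91ed4c_nt.Extract

open PowerSeries
open scoped PowerSeries.WithPiTopology

/-- Full (positive) answer to Q1 of MP_91ed4c_nt.

In `ℤ⟦X⟧` with its usual topology (coefficientwise convergence, `ℤ` discrete), `T` is the series
`T_o(q) = ∑_{m ≥ 0} q^(2m) (-q;q)_{2m} / (q;q^2)_{m+1}`, where
`(-q;q)_{2m} = ∏_{j < 2m} (1 + q^(j+1))`, `(q;q^2)_{m+1} = ∏_{j < m+1} (1 - q^(2j+1))` and
`PowerSeries.invOfUnit φ 1` is the inverse of a power series `φ` with constant coefficient `1`;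
`E` is `(q;q)_∞ = ∏_{j ≥ 0} (1 - q^(j+1))`.
The coefficients `c(n)` of `C = E * T` are unbounded above and unbounded below. -/
theorem Pool.Agent.Results.MP_91ed4c_nt.Unbounded.result :
    ∃ T E : ℤ⟦X⟧,
      HasSum (fun m : ℕ => (X : ℤ⟦X⟧) ^ (2 * m) * (∏ j ∈ Finset.range (2 * m), (1 + X ^ (j + 1))) *
        invOfUnit (∏ j ∈ Finset.range (m + 1), (1 - X ^ (2 * j + 1))) 1) T ∧
      HasProd (fun j : ℕ => 1 - (X : ℤ⟦X⟧) ^ (j + 1)) E ∧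
      (∀ M : ℤ, ∃ n : ℕ, M < coeff n (E * T)) ∧
      (∀ M : ℤ, ∃ n : ℕ, coeff n (E * T) < M) := by
  refine ⟨Pool.Agent.Lib.MP_91ed4c_nt.To, Pool.Agent.Lib.MP_91ed4c_nt.EE X,
    Pool.Agent.Lib.MP_91ed4c_nt.hasSum_To, ?_, ?_⟩
  · rw [Pool.Agent.Lib.MP_91ed4c_nt.EE_X]
    exact WithPiTopology.hasProd_one_sub_X_pow ℤ
  · exact Pool.Agent.Lib.MP_91ed4c_nt.unbounded_coeff
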